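import Mathlib
import Pool.Agent.X19.LatinParity

/-!
# MP_ab03e0_co, Q2: finite quasigroups with `(xy)y = x(xy)` have order `0` or `1` modulo `4`

Put `x * y := x(xy) = (xy)y`. This is again a quasigroup. Its row permutations are squares of row
permutations, its column permutations are squares of column permutations, and its symbol
permutations are squares of symbol permutations of the given quasigroup, so all three sign products
are `+1`. The parity theorem for Latin squares gives that `n(n-1)/2` is even.
-/

set_option autoImplicit false

namespace Pool.Agent.Results.MP_ab03e0_co.OrderModFour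

open Equiv

/-- **Q2 of MP_ab03e0_co.** If a finite set carries a quasigroup operation `op` with
`(x y) y = x (x y)` for all `x, y`, then its order is congruent to `0` or `1` modulo `4`. -/
theorem result : ∀ (Q : Type*) [Fintype Q] (op : Q → Q → Q),
    (∀ a b : Q, ∃! x : Q, op a x = b) → (∀ a b : Q, ∃! x : Q, op x a = b) →
    (∀ x y : Q, op (op x y) y = op x (op x y)) →
    Fintype.card Q % 4 = 0 ∨ Fintype.card Q % 4 = 1 := by
  classical
  intro Q _ op hL hR hid
  have hLb : ∀ a, Function.Bijective (op a) := fun a => (Function.bijective_iff_existsUnique _).2 (hL a)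
  have hRb : ∀ a, Function.Bijective (fun x => op x a) :=
    fun a => (Function.bijective_iff_existsUnique _).2 (hR a)
  -- the permutation (x, y) ↦ (x, x y)
  let A : Perm (Q × Q) := Equiv.prodShear (Equiv.refl Q) (fun x => Equiv.ofBijective (op x) (hLb x))
  have hA : ∀ x y, A (x, y) = (x, op x y) := fun x y => rfl
  -- the permutation (x, y) ↦ (x y, y)
  have hBb : Function.Bijective (fun t : Q × Q => (op t.1 t.2, t.2)) := by
    rw [Finite.injective_iff_bijective.symm]
    rintro ⟨a, b⟩ ⟨c, d⟩ h
    simp only [Prod.mk.injEq] at h
    obtain ⟨h1, h2⟩ := h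
    subst h2
    rw [(hRb b).1 h1]
  let B : Perm (Q × Q) := Equiv.ofBijective _ hBb
  have hB : ∀ x y, B (x, y) = (op x y, y) := fun x y => rfl
  -- the permutation (x, x y) ↦ (y, x y)
  have hCb : Function.Bijective (fun t : Q × Q => ((Equiv.ofBijective (op t.1) (hLb t.1)).symm t.2, t.2)) := by
    rw [Finite.injective_iff_bijective.symm]
    rintro ⟨a, b⟩ ⟨c, d⟩ h
    simp only [Prod.mk.injEq] at h
    obtain ⟨h1, h2⟩ := h
    subst h2
    set u := (Equiv.ofBijective (op a) (hLb a)).symm b with hu
    have e1 : op a u = b := (Equiv.ofBijective (op a) (hLb a)).apply_symm_apply b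
    have e2 : op c u = b := by
      rw [h1]
      exact (Equiv.ofBijective (op c) (hLb c)).apply_symm_apply b
    have : a = c := (hRb u).1 (e1.trans e2.symm)
    rw [this]
  let C : Perm (Q × Q) := Equiv.ofBijective _ hCb
  have hC : ∀ x y, C (x, op x y) = (y, op x y) := by
    intro x y
    change ((Equiv.ofBijective (op x) (hLb x)).symm (op x y), op x y) = (y, op x y)
    congr 1
    exact (Equiv.ofBijective (op x) (hLb x)).symm_apply_apply y
  -- the derived operation
  have h := Pool.Agent.X19.LatinParity.parity (fun x y => op x (op x y)) (A * A) (B * B) (C * C) ?_ ?_ ?_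
  · simp only [Perm.sign_mul, Int.units_mul_self, one_mul, mul_one] at h
    exact Pool.Agent.X19.LatinParity.mod_four h.symm
  · intro x y
    rw [Perm.mul_apply, hA, hA]
  · intro x y
    rw [Perm.mul_apply, hB, hB, hid]
  · intro x y
    -- x · c = s and c · y = s with c = x y
    have e1 : C (x, op x (op x y)) = (op x y, op x (op x y)) := hC x (op x y)
    have e2 : C (op x y, op x (op x y)) = (y, op x (op x y)) := by
      have := hC (op x y) y
      rwa [hid] at this
    rw [Perm.mul_apply, e1, e2]

end Pool.Agent.Results.MP_ab03e0_co.OrderModFour
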